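import Mathlib

/-!
# Polynomials in the proof of the log-concavity of the second-order ratios of the Boros-Moll numbers
-/

set_option autoImplicit false

namespace Pool.Agent.Q267.BM

def al (n l : ℚ) : ℚ := 8 * n ^ 2 + 8 * n + 3 - 4 * l ^ 2
def be (n l : ℚ) : ℚ := (n ^ 2 - l ^ 2) * (16 * n ^ 2 - 1)
def Kf (n l : ℚ) : ℚ := (n + 1) * (n + 1 - l)
def bb (n l : ℚ) : ℚ := (n + l) * (16 * n ^ 2 - 1) * Kf n l ^ 3 * Kf (n + 2) l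
def kk (n l : ℚ) : ℚ := n * Kf (n + 1) l ^ 3
def C2 (n l : ℚ) : ℚ := kk n l * (2 * n + 1) ^ 4 * (al (n + 2) l * al (n + 1) l - be (n + 2) l) -
  3 * bb n l * (2 * n + 5) ^ 4
def C1 (n l : ℚ) : ℚ := 4 * bb n l * (2 * n + 5) ^ 3 * (2 * n + 1) * al (n + 1) l -
  kk n l * (2 * n + 1) ^ 4 * (al n l * (al (n + 2) l * al (n + 1) l - be (n + 2) l) +
    al (n + 2) l * be (n + 1) l)
def C0 (n l : ℚ) : ℚ := kk n l * (2 * n + 1) ^ 4 * al n l * al (n + 2) l * be (n + 1) l -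
  4 * bb n l * (2 * n + 5) ^ 3 * (2 * n + 1) * be (n + 1) l
def Ef (n l : ℚ) : ℚ := 4 * l ^ 2 + 3 * n
def Nl (n l : ℚ) : ℚ := (2 * n + 1) * (2 * n + 3) * Ef n l - 3 * (n ^ 2 - l ^ 2)


end Pool.Agent.Q267.BM
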