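import Pool.Agent.Q267.BM.Defs

/-!
# Positivity of a polynomial with nonnegative coefficients
-/
set_option autoImplicit false

namespace Pool.Agent.Q267.BM

theorem c2_pos {j k : ℚ} (hj : 0 ≤ j) (hk : 0 ≤ k) : 0 < C2 (2 + j + k) (1 + j) := by
  have h : C2 (2 + j + k) (1 + j) =
      (8294024160 + 30995816832 * j ^ 1 + 53727382080 * j ^ 2 + 56906484336 * j ^ 3 + 40802549580 * j ^ 4 + 20748472866 * j ^ 5 + 7636177800 * j ^ 6 + 2042821296 * j ^ 7 + 393779952 * j ^ 8 + 53413536 * j ^ 9 + 4861440 * j ^ 10 + 268800 * j ^ 11 + 6912 * j ^ 12) +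
      (35881204392 + 123664573152 * j ^ 1 + 197231890464 * j ^ 2 + 191552208372 * j ^ 3 + 125319318696 * j ^ 4 + 57766676472 * j ^ 5 + 19114667928 * j ^ 6 + 4552465824 * j ^ 7 + 772326768 * j ^ 8 + 90985728 * j ^ 9 + 7082496 * j ^ 10 + 328704 * j ^ 11 + 6912 * j ^ 12) * k ^ 1 +
      (71135787492 + 224533382544 * j ^ 1 + 327072075804 * j ^ 2 + 288910420254 * j ^ 3 + 170850429927 * j ^ 4 + 70586635356 * j ^ 5 + 20707797600 * j ^ 6 + 4314096960 * j ^ 7 + 629819328 * j ^ 8 + 62588352 * j ^ 9 + 4006656 * j ^ 10 + 147456 * j ^ 11 + 2304 * j ^ 12) * k ^ 2 +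
      (85566879906 + 245303050300 * j ^ 1 + 323479100014 * j ^ 2 + 257332901410 * j ^ 3 + 135970951785 * j ^ 4 + 49639185180 * j ^ 5 + 12680297712 * j ^ 6 + 2257493568 * j ^ 7 + 275004384 * j ^ 8 + 22103232 * j ^ 9 + 1093888 * j ^ 10 + 28672 * j ^ 11 + 256 * j ^ 12) * k ^ 3 +
      (69668700693 + 179583050976 * j ^ 1 + 212076377608 * j ^ 2 + 150102852388 * j ^ 3 + 69841358984 * j ^ 4 + 22119487864 * j ^ 5 + 4803062912 * j ^ 6 + 707484928 * j ^ 7 + 68770688 * j ^ 8 + 4187008 * j ^ 9 + 143360 * j ^ 10 + 2048 * j ^ 11) * k ^ 4 +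
      (40543649301 + 92806016432 * j ^ 1 + 96835371998 * j ^ 2 + 60048448720 * j ^ 3 + 24142931900 * j ^ 4 + 6471238048 * j ^ 5 + 1154734592 * j ^ 6 + 134159488 * j ^ 7 + 9693632 * j ^ 8 + 397312 * j ^ 9 + 7168 * j ^ 10) * k ^ 5 +
      (17349008979 + 34714195688 * j ^ 1 + 31455975704 * j ^ 2 + 16750714784 * j ^ 3 + 5672682928 * j ^ 4 + 1242348736 * j ^ 5 + 173102080 * j ^ 6 + 14672384 * j ^ 7 + 691712 * j ^ 8 + 14336 * j ^ 9) * k ^ 6 +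
      (5526793017 + 9469527732 * j ^ 1 + 7283248664 * j ^ 2 + 3240944288 * j ^ 3 + 891270160 * j ^ 4 + 151080576 * j ^ 5 + 15079040 * j ^ 6 + 802816 * j ^ 7 + 17920 * j ^ 8) * k ^ 7 +
      (1310715216 + 1869641128 * j ^ 1 + 1182317248 * j ^ 2 + 422684096 * j ^ 3 + 89165952 * j ^ 4 + 10643968 * j ^ 5 + 637952 * j ^ 6 + 14336 * j ^ 7) * k ^ 8 +
      (228549228 + 260563072 * j ^ 1 + 129212896 * j ^ 2 + 34887808 * j ^ 3 + 5099008 * j ^ 4 + 348160 * j ^ 5 + 7168 * j ^ 6) * k ^ 9 +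
      (28480848 + 24331584 * j ^ 1 + 8751616 * j ^ 2 + 1595392 * j ^ 3 + 127232 * j ^ 4 + 2048 * j ^ 5) * k ^ 10 +
      (2401968 + 1366976 * j ^ 1 + 305792 * j ^ 2 + 28672 * j ^ 3 + 256 * j ^ 4) * k ^ 11 +
      (122880 + 34944 * j ^ 1 + 3072 * j ^ 2) * k ^ 12 +
      (2880) * k ^ 13 := by
    unfold C2 kk bb al be Kf
    ring
  rw [h]
  positivity

end Pool.Agent.Q267.BM
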