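import Pool.Agent.Q267.BM.Rec
import Pool.Agent.Q267.BM.Pos1
import Pool.Agent.Q267.BM.Pos2
import Pool.Agent.Q267.BM.Pos3

/-!
# Log-concavity of the second-order ratios of the Boros-Moll numbers
-/
set_option autoImplicit false

namespace Pool.Agent.Q267.BM

open Finset

theorem D_pos {l m : ℕ} (h : l ≤ m) : 0 < D l m := by
  unfold D
  apply Finset.sum_pos'
  · intro k _
    unfold F
    positivity
  · refine ⟨m, Finset.mem_range.2 (by omega), ?_⟩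
    unfold F
    have h1 : 0 < m.choose l := Nat.choose_pos h
    have h2 : 0 < (m + m).choose m := Nat.choose_pos (by omega)
    have h3 : 2 * m - 2 * m = 0 := by omega
    have h4 : m - m = 0 := by omega
    rw [h3, h4]
    have h1' : (0 : ℚ) < m.choose l := by exact_mod_cast h1
    have h2' : (0 : ℚ) < (m + m).choose m := by exact_mod_cast h2
    simp only [Nat.choose_self, Nat.cast_one]
    positivity

theorem D_zero {l m : ℕ} (h : m < l) : D l m = 0 := by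
  unfold D
  apply Finset.sum_eq_zero
  intro k hk
  have hk' := Finset.mem_range.1 hk
  unfold F
  rw [Nat.choose_eq_zero_of_lt (show k < l by omega)]
  simp

/-- the normalised ratio -/
def Nn (l n : ℕ) : ℚ := 2 * Kf n l * D l (n + 1) / D l n

theorem Nn_mul {l n : ℕ} (h : l ≤ n) : Nn l n * D l n = 2 * Kf n l * D l (n + 1) := by
  unfold Nn
  rw [div_mul_cancel₀]
  exact (D_pos h).ne'

theorem Kf_pos {l n : ℕ} (h : l ≤ n) : 0 < Kf n l := by
  unfold Kf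
  have : (l : ℚ) ≤ n := by exact_mod_cast h
  have h1 : (0 : ℚ) ≤ n := by positivity
  apply mul_pos <;> linarith

theorem Nn_pos {l n : ℕ} (h : l ≤ n) : 0 < Nn l n := by
  unfold Nn
  have h1 := D_pos h
  have h2 := D_pos (show l ≤ n + 1 by omega)
  have h3 := Kf_pos h
  positivity

theorem Nn_step {l n : ℕ} (hl : 1 ≤ l) (h : l ≤ n) :
    Nn l (n + 1) * Nn l n = al ((n : ℚ) + 1) l * Nn l n - be ((n : ℚ) + 1) l := by
  have h0 := Nn_mul h
  have h1 := Nn_mul (show l ≤ n + 1 by omega)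
  have hr := recurrence hl n
  have d0 := D_pos h
  have d1 := D_pos (show l ≤ n + 1 by omega)
  push_cast at h1
  have hn : (0 : ℚ) < (n : ℚ) + 1 := by positivity
  apply mul_left_cancel₀ (mul_pos d0 d1).ne'
  unfold al be Kf at *
  have e : n + 1 + 1 = n + 2 := rfl
  rw [e] at h1
  set N0 := Nn l n
  set N1 := Nn l (n + 1)
  set a0 := D l n
  set a1 := D l (n + 1)
  set a2 := D l (n + 2)
  -- a0 a1 N1 N0 = (N1 a1) (N0 a0) 
  have e1 : a0 * a1 * (N1 * N0) = (N1 * a1) * (N0 * a0) := by ring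
  have e2 : a0 * a1 * ((8 * ((n : ℚ) + 1) ^ 2 + 8 * ((n : ℚ) + 1) + 3 - 4 * (l : ℚ) ^ 2) * N0 -
      (((n : ℚ) + 1) ^ 2 - (l : ℚ) ^ 2) * (16 * ((n : ℚ) + 1) ^ 2 - 1)) =
      (8 * ((n : ℚ) + 1) ^ 2 + 8 * ((n : ℚ) + 1) + 3 - 4 * (l : ℚ) ^ 2) * a1 * (N0 * a0) -
      (((n : ℚ) + 1) ^ 2 - (l : ℚ) ^ 2) * (16 * ((n : ℚ) + 1) ^ 2 - 1) * a0 * a1 := by ring
  rw [e1, e2, h0, h1]
  linear_combination (a1 * ((n : ℚ) + 1 - l)) * hr

theorem Nn_base {l : ℕ} (hl : 1 ≤ l) : Nn l l = (2 * l + 1) * (2 * l + 3) := by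
  obtain ⟨p, rfl⟩ : ∃ p, l = p + 1 := ⟨l - 1, by omega⟩
  have hr := recurrence hl p
  have h0 := Nn_mul (le_refl (p + 1))
  rw [D_zero (show p < p + 1 by omega)] at hr
  have d1 := D_pos (le_refl (p + 1))
  have e : p + 1 + 1 = p + 2 := rfl
  rw [e] at h0
  unfold Kf at h0
  push_cast at h0 hr ⊢
  have hp : (0 : ℚ) < (p : ℚ) + 1 := by positivity
  apply mul_right_cancel₀ d1.ne'
  apply mul_left_cancel₀ hp.ne'
  apply mul_left_cancel₀ (show (2 : ℚ) ≠ 0 by norm_num)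
  rw [h0]
  linear_combination hr

theorem Ef_pos {l n : ℕ} (hl : 1 ≤ l) : 0 < Ef n l := by
  unfold Ef
  have : (1 : ℚ) ≤ l := by exact_mod_cast hl
  positivity

theorem Nn_low {l : ℕ} (hl : 1 ≤ l) {n : ℕ} (h : l ≤ n) : Nl n l ≤ Nn l n * Ef n l := by
  induction n, h using Nat.le_induction with
  | base =>
    rw [Nn_base hl]
    unfold Nl Ef
    apply le_of_eq
    ring
  | succ n h ih =>
    have hs := Nn_step hl h
    have hp := Nn_pos h
    have hl' : (1 : ℚ) ≤ l := by exact_mod_cast hl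
    have hn' : (l : ℚ) ≤ n := by exact_mod_cast h
    have hE : 0 < Ef (n : ℚ) l := Ef_pos hl
    -- Nl > 0
    have hNl : 0 < Nl (n : ℚ) l := by
      unfold Nl Ef
      nlinarith [mul_nonneg (show (0 : ℚ) ≤ n by linarith) (show (0 : ℚ) ≤ n by linarith), sq_nonneg (l : ℚ),
        mul_nonneg (mul_nonneg (show (0 : ℚ) ≤ n by linarith) (show (0 : ℚ) ≤ n by linarith)) (show (0 : ℚ) ≤ n by linarith),
        mul_nonneg (show (0 : ℚ) ≤ n by linarith) (sq_nonneg (l : ℚ)),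
        mul_nonneg (mul_nonneg (show (0 : ℚ) ≤ n by linarith) (show (0 : ℚ) ≤ n by linarith)) (sq_nonneg (l : ℚ))]
    have hbe : 0 ≤ be ((n : ℚ) + 1) l := by
      unfold be
      apply mul_nonneg
      · nlinarith
      · nlinarith
    push_cast
    -- N_{n+1} N_n E' = (al N - be) E'
    have hkey : Nl ((n : ℚ) + 1) l * Nl (n : ℚ) l ≤
        (al ((n : ℚ) + 1) l * Nl (n : ℚ) l - be ((n : ℚ) + 1) l * Ef (n : ℚ) l) * Ef ((n : ℚ) + 1) l := by
      have hD : (al ((n : ℚ) + 1) l * Nl (n : ℚ) l - be ((n : ℚ) + 1) l * Ef (n : ℚ) l) * Ef ((n : ℚ) + 1) l -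
          Nl ((n : ℚ) + 1) l * Nl (n : ℚ) l =
          15 * (((n : ℚ) + 1) ^ 2 - (l : ℚ) ^ 2) * (l : ℚ) ^ 2 * (4 * n + 3) := by
        unfold Nl al be Ef
        ring
      have h1 : (0 : ℚ) ≤ ((n : ℚ) + 1) ^ 2 - (l : ℚ) ^ 2 := by nlinarith
      have h2 : (0 : ℚ) ≤ 15 * (((n : ℚ) + 1) ^ 2 - (l : ℚ) ^ 2) * (l : ℚ) ^ 2 * (4 * n + 3) := by positivity
      linarith
    have hE1 : 0 < Ef ((n : ℚ) + 1) l := by
      unfold Ef
      positivity
    have hdiff : (al ((n : ℚ) + 1) l * Ef ((n : ℚ) + 1) l - Nl ((n : ℚ) + 1) l) * Nl (n : ℚ) l ≥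
        be ((n : ℚ) + 1) l * Ef (n : ℚ) l * Ef ((n : ℚ) + 1) l := by
      linarith
    have hc : 0 ≤ al ((n : ℚ) + 1) l * Ef ((n : ℚ) + 1) l - Nl ((n : ℚ) + 1) l := by
      by_contra hcon
      push Not at hcon
      have : (al ((n : ℚ) + 1) l * Ef ((n : ℚ) + 1) l - Nl ((n : ℚ) + 1) l) * Nl (n : ℚ) l < 0 :=
        mul_neg_of_neg_of_pos hcon hNl
      have h2 : 0 ≤ be ((n : ℚ) + 1) l * Ef (n : ℚ) l * Ef ((n : ℚ) + 1) l := by positivity
      linarith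
    have h3 : be ((n : ℚ) + 1) l * Ef (n : ℚ) l * Ef ((n : ℚ) + 1) l ≤
        (al ((n : ℚ) + 1) l * Ef ((n : ℚ) + 1) l - Nl ((n : ℚ) + 1) l) * (Nn l n * Ef (n : ℚ) l) :=
      le_trans hdiff (mul_le_mul_of_nonneg_left ih hc)
    have h4 : be ((n : ℚ) + 1) l * Ef ((n : ℚ) + 1) l ≤
        (al ((n : ℚ) + 1) l * Ef ((n : ℚ) + 1) l - Nl ((n : ℚ) + 1) l) * Nn l n := by
      have h5 : be ((n : ℚ) + 1) l * Ef ((n : ℚ) + 1) l * Ef (n : ℚ) l ≤
        (al ((n : ℚ) + 1) l * Ef ((n : ℚ) + 1) l - Nl ((n : ℚ) + 1) l) * Nn l n * Ef (n : ℚ) l := by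
        linarith
      exact le_of_mul_le_mul_right h5 hE
    have h6 : Nl ((n : ℚ) + 1) l * Nn l n ≤ (Nn l (n + 1) * Nn l n) * Ef ((n : ℚ) + 1) l := by
      rw [hs]
      linarith
    have h7 : Nl ((n : ℚ) + 1) l * Nn l n ≤ (Nn l (n + 1) * Ef ((n : ℚ) + 1) l) * Nn l n := by
      linarith
    exact le_of_mul_le_mul_right h7 hp

theorem tangent (x y : ℚ) : 4 * x ^ 3 * y - 3 * x ^ 4 ≤ y ^ 4 := by
  nlinarith [mul_nonneg (sq_nonneg (x - y)) (add_nonneg (mul_nonneg (show (0 : ℚ) ≤ 2 by norm_num) (sq_nonneg x))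
    (sq_nonneg (x + y)))]

/-- the main inequality for the normalised ratios, `n = p + 1` -/
theorem main_N {l p : ℕ} (hl : 1 ≤ l) (h : l ≤ p) :
    Kf p l * Kf ((p : ℚ) + 2) l ^ 3 * (Nn l (p + 1) ^ 3 * Nn l (p + 3)) <
      Kf ((p : ℚ) + 1) l ^ 3 * Kf ((p : ℚ) + 3) l * (Nn l (p + 2) ^ 3 * Nn l p) := by
  have hs0 := Nn_step hl h
  have hs1 := Nn_step hl (show l ≤ p + 1 by omega)
  have hs2 := Nn_step hl (show l ≤ p + 2 by omega)
  have hlow := Nn_low hl (show l ≤ p + 1 by omega)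
  have p0 := Nn_pos h
  have p1 := Nn_pos (show l ≤ p + 1 by omega)
  have p2 := Nn_pos (show l ≤ p + 2 by omega)
  have p3 := Nn_pos (show l ≤ p + 3 by omega)
  have e1 : p + 1 + 1 = p + 2 := rfl
  have e2 : p + 2 + 1 = p + 3 := rfl
  rw [e1] at hs1
  rw [e2] at hs2
  push_cast at hs1 hs2 hlow
  have hl' : (1 : ℚ) ≤ l := by exact_mod_cast hl
  have hp' : (l : ℚ) ≤ p := by exact_mod_cast h
  have hE : 0 < Ef ((p : ℚ) + 1) l := by
    unfold Ef
    positivity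
  set N0 := Nn l p
  set N := Nn l (p + 1)
  set N1 := Nn l (p + 2)
  set N2 := Nn l (p + 3)
  obtain ⟨n, hn⟩ : ∃ n : ℚ, n = p + 1 := ⟨_, rfl⟩
  have hnl : (l : ℚ) < n := by rw [hn]; linarith
  have hc2 := c2_pos (j := (l : ℚ) - 1) (k := n - l - 1) (by linarith) (by rw [hn]; linarith)
  have hder := der_pos (j := (l : ℚ) - 1) (k := n - l - 1) (by linarith) (by rw [hn]; linarith)
  have hval := val_pos (j := (l : ℚ) - 1) (k := n - l - 1) (by linarith) (by rw [hn]; linarith)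
  have t1 : 2 + ((l : ℚ) - 1) + (n - l - 1) = n := by ring
  have t2 : 1 + ((l : ℚ) - 1) = l := by ring
  rw [t1, t2] at hc2 hder hval
  have q1 : (p : ℚ) + 1 = n := hn.symm
  have q2 : (p : ℚ) + 1 + 1 = n + 1 := by rw [hn]
  have q3 : (p : ℚ) + 2 + 1 = n + 2 := by rw [hn]; ring
  have q4 : (p : ℚ) + 2 = n + 1 := by rw [hn]; ring
  have q5 : (p : ℚ) + 3 = n + 2 := by rw [hn]; ring
  have q6 : (p : ℚ) = n - 1 := by rw [hn]; ring
  rw [q1] at hs0 hlow hE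
  rw [q2] at hs1
  rw [q3] at hs2
  rw [q4, q5, q1, q6]
  -- the quadratic polynomial is positive
  have hQ : 0 < C2 n l * N ^ 2 + C1 n l * N + C0 n l := by
    have hd : 0 ≤ N * Ef n l - Nl n l := by linarith
    have h1 : 0 ≤ (N * Ef n l - Nl n l) * (2 * C2 n l * Nl n l + C1 n l * Ef n l) := mul_nonneg hd hder.le
    have h2 : 0 ≤ C2 n l * (N * Ef n l - Nl n l) ^ 2 := by positivity
    have h3 : (C2 n l * N ^ 2 + C1 n l * N + C0 n l) * Ef n l ^ 2 =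
        (C2 n l * Nl n l ^ 2 + C1 n l * Nl n l * Ef n l + C0 n l * Ef n l ^ 2) +
        (N * Ef n l - Nl n l) * (2 * C2 n l * Nl n l + C1 n l * Ef n l) +
        C2 n l * (N * Ef n l - Nl n l) ^ 2 := by ring
    have h4 : 0 < (C2 n l * N ^ 2 + C1 n l * N + C0 n l) * Ef n l ^ 2 := by
      rw [h3]
      linarith
    exact pos_of_mul_pos_left h4 (by positivity)
  have hQ2 : C2 n l * N ^ 2 + C1 n l * N + C0 n l =
      bb n l * (4 * (2 * n + 5) ^ 3 * (2 * n + 1) * (N1 * N) - 3 * (2 * n + 5) ^ 4 * N ^ 2) -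
        kk n l * (2 * n + 1) ^ 4 * ((al n l - N) * (N2 * N1 * N)) := by
    have hV : N2 * N1 * N = (al (n + 2) l * al (n + 1) l - be (n + 2) l) * N - al (n + 2) l * be (n + 1) l := by
      have : N2 * N1 * N = al (n + 2) l * (N1 * N) - be (n + 2) l * N := by rw [hs2]; ring
      rw [this, hs1]
      ring
    rw [hV, hs1]
    unfold C2 C1 C0
    ring
  have hKn : 0 < Kf n l := by
    unfold Kf
    apply mul_pos <;> linarith
  have hK1 : 0 < Kf (n + 1) l := by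
    unfold Kf
    apply mul_pos <;> linarith
  have hK2 : 0 < Kf (n + 2) l := by
    unfold Kf
    apply mul_pos <;> linarith
  have hg : 0 < (n + l) * (16 * n ^ 2 - 1) := by
    apply mul_pos
    · linarith
    · nlinarith
  have hb : 0 < bb n l := by
    unfold bb
    positivity
  have htan := tangent ((2 * n + 5) * N) ((2 * n + 1) * N1)
  have hR : 0 < (2 * n + 1) ^ 4 := by
    have : 0 < 2 * n + 1 := by linarith
    positivity
  have h5 : kk n l * (2 * n + 1) ^ 4 * ((al n l - N) * (N2 * N1 * N)) * N ^ 2 <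
      bb n l * ((2 * n + 1) ^ 4 * N1 ^ 4) := by
    have h6 : kk n l * (2 * n + 1) ^ 4 * ((al n l - N) * (N2 * N1 * N)) * N ^ 2 <
        bb n l * (4 * (2 * n + 5) ^ 3 * (2 * n + 1) * (N1 * N) - 3 * (2 * n + 5) ^ 4 * N ^ 2) * N ^ 2 := by
      apply mul_lt_mul_of_pos_right _ (by positivity)
      linarith
    have h7 : bb n l * (4 * (2 * n + 5) ^ 3 * (2 * n + 1) * (N1 * N) - 3 * (2 * n + 5) ^ 4 * N ^ 2) * N ^ 2 =
        bb n l * (4 * ((2 * n + 5) * N) ^ 3 * ((2 * n + 1) * N1) - 3 * ((2 * n + 5) * N) ^ 4) := by ring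
    have h8 : bb n l * ((2 * n + 1) ^ 4 * N1 ^ 4) = bb n l * ((2 * n + 1) * N1) ^ 4 := by ring
    rw [h7] at h6
    rw [h8]
    exact lt_of_lt_of_le h6 (mul_le_mul_of_nonneg_left htan hb.le)
  have h9 : kk n l * (al n l - N) * N2 * N ^ 3 < bb n l * N1 ^ 3 := by
    have h10 : (kk n l * (al n l - N) * N2 * N ^ 3) * ((2 * n + 1) ^ 4 * N1) <
        (bb n l * N1 ^ 3) * ((2 * n + 1) ^ 4 * N1) := by
      linarith
    exact lt_of_mul_lt_mul_right h10 (by positivity)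
  have h11 : kk n l * be n l * N2 * N ^ 3 < bb n l * N1 ^ 3 * N0 := by
    have h12 : kk n l * (al n l - N) * N2 * N ^ 3 * N0 < bb n l * N1 ^ 3 * N0 :=
      mul_lt_mul_of_pos_right h9 p0
    have h13 : (al n l - N) * N0 = be n l := by linarith
    have h14 : kk n l * (al n l - N) * N2 * N ^ 3 * N0 = kk n l * ((al n l - N) * N0) * N2 * N ^ 3 := by ring
    rw [h14, h13] at h12
    exact h12
  have h15 : ((n + l) * (16 * n ^ 2 - 1)) * (Kf (n - 1) l * Kf (n + 1) l ^ 3 * (N ^ 3 * N2)) <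
      ((n + l) * (16 * n ^ 2 - 1)) * (Kf n l ^ 3 * Kf (n + 2) l * (N1 ^ 3 * N0)) := by
    have h16 : ((n + l) * (16 * n ^ 2 - 1)) * (Kf (n - 1) l * Kf (n + 1) l ^ 3 * (N ^ 3 * N2)) =
        kk n l * be n l * N2 * N ^ 3 := by
      have hK : Kf (n - 1) l = n * (n - l) := by unfold Kf; ring
      rw [hK]
      unfold kk be
      ring
    have h17 : ((n + l) * (16 * n ^ 2 - 1)) * (Kf n l ^ 3 * Kf (n + 2) l * (N1 ^ 3 * N0)) =
        bb n l * N1 ^ 3 * N0 := by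
      unfold bb
      ring
    rw [h16, h17]
    exact h11
  exact lt_of_mul_lt_mul_left h15 hg.le

/-- the inequality for five successive Boros-Moll numbers -/
theorem main_D {l p : ℕ} (hl : 1 ≤ l) (h : l ≤ p) :
    D l p * D l (p + 4) * D l (p + 2) ^ 6 < D l (p + 1) ^ 4 * D l (p + 3) ^ 4 := by
  have hN := main_N hl h
  have m0 := Nn_mul h
  have m1 := Nn_mul (show l ≤ p + 1 by omega)
  have m2 := Nn_mul (show l ≤ p + 2 by omega)
  have m3 := Nn_mul (show l ≤ p + 3 by omega)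
  have a0 := D_pos h
  have a1 := D_pos (show l ≤ p + 1 by omega)
  have a2 := D_pos (show l ≤ p + 2 by omega)
  have a3 := D_pos (show l ≤ p + 3 by omega)
  have k0 := Kf_pos h
  have k1 := Kf_pos (show l ≤ p + 1 by omega)
  have k2 := Kf_pos (show l ≤ p + 2 by omega)
  have k3 := Kf_pos (show l ≤ p + 3 by omega)
  push_cast at m0 m1 m2 m3 k0 k1 k2 k3
  have e1 : p + 1 + 1 = p + 2 := rfl
  have e2 : p + 2 + 1 = p + 3 := rfl
  have e3 : p + 3 + 1 = p + 4 := rfl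
  rw [e1] at m1
  rw [e2] at m2
  rw [e3] at m3
  set K0 := Kf (p : ℚ) l
  set K1 := Kf ((p : ℚ) + 1) l
  set K2 := Kf ((p : ℚ) + 2) l
  set K3 := Kf ((p : ℚ) + 3) l
  set N0 := Nn l p
  set N1 := Nn l (p + 1)
  set N2 := Nn l (p + 2)
  set N3 := Nn l (p + 3)
  set d0 := D l p
  set d1 := D l (p + 1)
  set d2 := D l (p + 2)
  set d3 := D l (p + 3)
  set d4 := D l (p + 4)
  -- multiply `hN` by `d0 d1³ d2³ d3`
  have hM : 0 < d0 * d1 ^ 3 * d2 ^ 3 * d3 := by positivity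
  have h1 := mul_lt_mul_of_pos_right hN hM
  have h2 : K0 * K2 ^ 3 * (N1 ^ 3 * N3) * (d0 * d1 ^ 3 * d2 ^ 3 * d3) =
      (16 * (K0 * K1 ^ 3 * K2 ^ 3 * K3)) * (d0 * d4 * d2 ^ 6) := by
    have : K0 * K2 ^ 3 * (N1 ^ 3 * N3) * (d0 * d1 ^ 3 * d2 ^ 3 * d3) =
        K0 * K2 ^ 3 * (N1 * d1) ^ 3 * (N3 * d3) * (d0 * d2 ^ 3) := by ring
    rw [this, m1, m3]
    ring
  have h3 : K1 ^ 3 * K3 * (N2 ^ 3 * N0) * (d0 * d1 ^ 3 * d2 ^ 3 * d3) =
      (16 * (K0 * K1 ^ 3 * K2 ^ 3 * K3)) * (d1 ^ 4 * d3 ^ 4) := by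
    have : K1 ^ 3 * K3 * (N2 ^ 3 * N0) * (d0 * d1 ^ 3 * d2 ^ 3 * d3) =
        K1 ^ 3 * K3 * (N2 * d2) ^ 3 * (N0 * d0) * (d1 ^ 3 * d3) := by ring
    rw [this, m2, m0]
    ring
  rw [h2, h3] at h1
  exact lt_of_mul_lt_mul_left h1 (by positivity)

end Pool.Agent.Q267.BM
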