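import Mathlib

/-!
# The recurrence of the Boros-Moll numbers in the second index

`F l m k` is the summand of `d_l(m)`; the recurrence of order two is proved by the method of Zeilberger.
-/
set_option autoImplicit false

namespace Pool.Agent.Q267.BM

open Finset

/-- the summand -/
def F (l m k : ℕ) : ℚ :=
  2 ^ k * ((2 * m - 2 * k).choose (m - k) : ℚ) * ((m + k).choose m : ℚ) * (k.choose l : ℚ) / 4 ^ m

theorem F_zero {l : ℕ} (hl : 1 ≤ l) (m : ℕ) : F l m 0 = 0 := by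
  unfold F
  rw [Nat.choose_eq_zero_of_lt (show 0 < l by omega)]
  simp

theorem choose_l (l k : ℕ) : ((k + 1).choose l : ℚ) * ((k : ℚ) + 1 - l) = (k + 1) * (k.choose l : ℚ) := by
  rcases Nat.lt_or_ge (k + 1) l with h | h
  · rw [Nat.choose_eq_zero_of_lt h, Nat.choose_eq_zero_of_lt (by omega)]
    simp
  · have h1 := Nat.choose_mul_succ_eq k l
    have h2 : (((k.choose l) * (k + 1) : ℕ) : ℚ) = (((k + 1).choose l * (k + 1 - l) : ℕ) : ℚ) := by
      exact_mod_cast congrArg (Nat.cast : ℕ → ℚ) h1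
    rw [Nat.cast_mul, Nat.cast_mul, Nat.cast_sub h] at h2
    push_cast at h2
    linarith

/-- same `k`, from `m` to `m + 1` -/
theorem F_succ (l k e : ℕ) :
    F l (k + e + 1) k * (2 * ((e : ℚ) + 1) * ((k : ℚ) + e + 1)) =
      (2 * (e : ℚ) + 1) * (2 * (k : ℚ) + e + 1) * F l (k + e) k := by
  unfold F
  have a1 : 2 * (k + e + 1) - 2 * k = 2 * (e + 1) := by omega
  have a2 : k + e + 1 - k = e + 1 := by omega
  have a3 : 2 * (k + e) - 2 * k = 2 * e := by omega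
  have a4 : k + e - k = e := by omega
  rw [a1, a2, a3, a4]
  have h1 : (((e + 1) * ((2 * (e + 1)).choose (e + 1)) : ℕ) : ℚ) =
      ((2 * (2 * e + 1) * ((2 * e).choose e) : ℕ) : ℚ) := by
    have := Nat.succ_mul_centralBinom_succ e
    rw [Nat.centralBinom_eq_two_mul_choose, Nat.centralBinom_eq_two_mul_choose] at this
    exact_mod_cast this
  push_cast at h1
  have h2 : (((k + e + 1 + k).choose (k + e + 1) * (k + e + 1) : ℕ) : ℚ) =
      (((k + e + k + 1) * ((k + e + k).choose (k + e)) : ℕ) : ℚ) := by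
    have := Nat.add_one_mul_choose_eq (k + e + k) (k + e)
    have e1 : k + e + 1 + k = k + e + k + 1 := by omega
    rw [e1]
    exact_mod_cast this.symm
  push_cast at h2
  rw [pow_succ (4 : ℚ) (k + e)]
  set c1 : ℚ := ((2 * (e + 1)).choose (e + 1) : ℚ)
  set c2 : ℚ := ((2 * e).choose e : ℚ)
  set c3 : ℚ := ((k + e + 1 + k).choose (k + e + 1) : ℚ)
  set c4 : ℚ := ((k + e + k).choose (k + e) : ℚ)
  have h4 : (4 : ℚ) ^ (k + e) ≠ 0 := by positivity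
  field_simp
  have e1 : c1 * c3 * (((e : ℚ) + 1) * ((k : ℚ) + e + 1)) =
      (2 * (2 * (e : ℚ) + 1) * c2) * (((k : ℚ) + e + k + 1) * c4) := by
    rw [← h1, ← h2]; ring
  linear_combination 2 * (k.choose l : ℚ) * e1

/-- same `m = k + e + 1`, from `k` to `k + 1` -/
theorem F_next (l k e : ℕ) :
    F l (k + e + 1) (k + 1) * ((2 * (e : ℚ) + 1) * ((k : ℚ) + 1 - l)) =
      ((e : ℚ) + 1) * (2 * (k : ℚ) + e + 2) * F l (k + e + 1) k := by
  unfold F
  have a1 : 2 * (k + e + 1) - 2 * k = 2 * (e + 1) := by omega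
  have a2 : k + e + 1 - k = e + 1 := by omega
  have a3 : 2 * (k + e + 1) - 2 * (k + 1) = 2 * e := by omega
  have a4 : k + e + 1 - (k + 1) = e := by omega
  rw [a1, a2, a3, a4]
  have h1 : (((e + 1) * ((2 * (e + 1)).choose (e + 1)) : ℕ) : ℚ) =
      ((2 * (2 * e + 1) * ((2 * e).choose e) : ℕ) : ℚ) := by
    have := Nat.succ_mul_centralBinom_succ e
    rw [Nat.centralBinom_eq_two_mul_choose, Nat.centralBinom_eq_two_mul_choose] at this
    exact_mod_cast this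
  push_cast at h1
  have h2 : (((k + e + 1 + (k + 1)).choose (k + e + 1) * (k + 1) : ℕ) : ℚ) =
      (((k + e + 1 + k + 1) * ((k + e + 1 + k).choose (k + e + 1)) : ℕ) : ℚ) := by
    have := Nat.choose_mul_succ_eq (k + e + 1 + k) (k + e + 1)
    have e1 : k + e + 1 + k + 1 - (k + e + 1) = k + 1 := by omega
    rw [e1] at this
    have e2 : k + e + 1 + (k + 1) = k + e + 1 + k + 1 := by omega
    rw [e2, mul_comm (k + e + 1 + k + 1)]
    exact_mod_cast this.symm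
  push_cast at h2
  have h3 := choose_l l k
  rw [pow_succ (2 : ℚ) k]
  set c1 : ℚ := ((2 * (e + 1)).choose (e + 1) : ℚ)
  set c2 : ℚ := ((2 * e).choose e : ℚ)
  set c3 : ℚ := ((k + e + 1 + (k + 1)).choose (k + e + 1) : ℚ)
  set c4 : ℚ := ((k + e + 1 + k).choose (k + e + 1) : ℚ)
  set c5 : ℚ := ((k + 1).choose l : ℚ)
  set c6 : ℚ := (k.choose l : ℚ)
  have h4 : (4 : ℚ) ^ (k + e + 1) ≠ 0 := by positivity
  have hk : (k : ℚ) + 1 ≠ 0 := by positivity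
  field_simp
  apply mul_left_cancel₀ hk
  have e1 : (c3 * ((k : ℚ) + 1)) * (c5 * ((k : ℚ) + 1 - l)) * (2 * (2 * (e : ℚ) + 1) * c2) =
      (((k : ℚ) + e + 1 + k + 1) * c4) * (((k : ℚ) + 1) * c6) * (((e : ℚ) + 1) * c1) := by
    rw [h2, h3, h1]
  linear_combination e1

/-- the coefficient polynomial of the certificate -/
def cert (l m k : ℚ) : ℚ :=
  4 * (m + 2 - l) * k ^ 2 + (-14 + 4 * l - 20 * m - 8 * m ^ 2) * k + 4 * (m + 1) * (m + 2) * (m + 1 + l)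

/-- the operator of order two -/
def LF (l m k : ℕ) : ℚ :=
  4 * ((m : ℚ) + 2 - l) * ((m : ℚ) + 1) * ((m : ℚ) + 2) * F l (m + 2) k -
    2 * ((m : ℚ) + 1) * (8 * (m : ℚ) ^ 2 + 24 * m + 19 - 4 * (l : ℚ) ^ 2) * F l (m + 1) k +
    ((m : ℚ) + l + 1) * (4 * (m : ℚ) + 3) * (4 * (m : ℚ) + 5) * F l m k

theorem partial_sum {l : ℕ} (hl : 1 ≤ l) (K : ℕ) : ∀ e : ℕ,
    (∑ k ∈ range (K + 1), LF l (K + e) k) * ((e : ℚ) + 1) =
      cert l (K + e : ℕ) (K + 1) * (2 * (K : ℚ) + e + 1) * F l (K + e) K := by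
  induction K with
  | zero =>
    intro e
    have h : LF l (0 + e) 0 = 0 := by
      unfold LF
      rw [F_zero hl, F_zero hl, F_zero hl]
      ring
    rw [zero_add, Finset.sum_range_one, h, F_zero hl]
    ring
  | succ K ih =>
    intro e
    have h0 := ih (e + 1)
    have hm : K + (e + 1) = K + 1 + e := by omega
    rw [hm] at h0
    rw [Finset.sum_range_succ]
    have h1 := F_next l K e
    have hm1 : K + e + 1 = K + 1 + e := by omega
    rw [hm1] at h1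
    have h2 := F_succ l (K + 1) e
    have h3 := F_succ l (K + 1) (e + 1)
    have hm2 : K + 1 + (e + 1) + 1 = K + 1 + e + 2 := by omega
    have hm3 : K + 1 + (e + 1) = K + 1 + e + 1 := by omega
    rw [hm2, hm3] at h3
    set Y := ∑ k ∈ range (K + 1), LF l (K + 1 + e) k
    have hLF : LF l (K + 1 + e) (K + 1) =
      4 * (((K + 1 + e : ℕ) : ℚ) + 2 - l) * (((K + 1 + e : ℕ) : ℚ) + 1) * (((K + 1 + e : ℕ) : ℚ) + 2) *
          F l (K + 1 + e + 2) (K + 1) -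
        2 * (((K + 1 + e : ℕ) : ℚ) + 1) * (8 * ((K + 1 + e : ℕ) : ℚ) ^ 2 + 24 * ((K + 1 + e : ℕ) : ℚ) + 19 -
          4 * (l : ℚ) ^ 2) * F l (K + 1 + e + 1) (K + 1) +
        (((K + 1 + e : ℕ) : ℚ) + l + 1) * (4 * ((K + 1 + e : ℕ) : ℚ) + 3) * (4 * ((K + 1 + e : ℕ) : ℚ) + 5) *
          F l (K + 1 + e) (K + 1) := rfl
    rw [hLF]
    set f0 := F l (K + 1 + e) (K + 1)
    set f1 := F l (K + 1 + e + 1) (K + 1)
    set f2 := F l (K + 1 + e + 2) (K + 1)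
    set g := F l (K + 1 + e) K
    unfold cert at h0 ⊢
    push_cast at h0 h1 h2 h3 ⊢
    have he : (e : ℚ) + 2 ≠ 0 := by positivity
    apply mul_left_cancel₀ he
    linear_combination ((e : ℚ) + 1) * h0 -
      (4 * ((K : ℚ) + 1 + e + 2 - l) * ((K : ℚ) + 1) ^ 2 +
        (-14 + 4 * l - 20 * ((K : ℚ) + 1 + e) - 8 * ((K : ℚ) + 1 + e) ^ 2) * ((K : ℚ) + 1) +
        4 * ((K : ℚ) + 1 + e + 1) * ((K : ℚ) + 1 + e + 2) * ((K : ℚ) + 1 + e + 1 + l)) * h1 +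
      (((K : ℚ) + 1 + e + 2 - l) * (2 * ((K : ℚ) + 1 + e + 1)) * ((e : ℚ) + 1)) * h3 +
      (((K : ℚ) + 1 + e + 2 - l) * (2 * (e : ℚ) + 3) * (2 * (K : ℚ) + e + 4) -
        (8 * ((K : ℚ) + 1 + e) ^ 2 + 24 * ((K : ℚ) + 1 + e) + 19 - 4 * (l : ℚ) ^ 2) * ((e : ℚ) + 2)) * h2

/-- the Boros-Moll numbers -/
def D (l m : ℕ) : ℚ := ∑ k ∈ range (m + 1), F l m k

theorem recurrence {l : ℕ} (hl : 1 ≤ l) (m : ℕ) :
    4 * ((m : ℚ) + 2 - l) * ((m : ℚ) + 1) * ((m : ℚ) + 2) * D l (m + 2) -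
      2 * ((m : ℚ) + 1) * (8 * (m : ℚ) ^ 2 + 24 * m + 19 - 4 * (l : ℚ) ^ 2) * D l (m + 1) +
      ((m : ℚ) + l + 1) * (4 * (m : ℚ) + 3) * (4 * (m : ℚ) + 5) * D l m = 0 := by
  have h0 := partial_sum hl m 0
  rw [add_zero] at h0
  have hs : ∑ k ∈ range (m + 1), LF l m k =
      4 * ((m : ℚ) + 2 - l) * ((m : ℚ) + 1) * ((m : ℚ) + 2) * ∑ k ∈ range (m + 1), F l (m + 2) k -
      2 * ((m : ℚ) + 1) * (8 * (m : ℚ) ^ 2 + 24 * m + 19 - 4 * (l : ℚ) ^ 2) *
        ∑ k ∈ range (m + 1), F l (m + 1) k +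
      ((m : ℚ) + l + 1) * (4 * (m : ℚ) + 3) * (4 * (m : ℚ) + 5) * ∑ k ∈ range (m + 1), F l m k := by
    rw [Finset.mul_sum, Finset.mul_sum, Finset.mul_sum, ← Finset.sum_sub_distrib, ← Finset.sum_add_distrib]
    rfl
  rw [hs] at h0
  unfold D
  rw [Finset.sum_range_succ (F l (m + 2)) (m + 2), Finset.sum_range_succ (F l (m + 2)) (m + 1),
    Finset.sum_range_succ (F l (m + 1)) (m + 1)]
  have h1 := F_succ l m 0
  have h2 := F_next l m 0
  have h3 := F_succ l (m + 1) 0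
  have h4 := F_next l (m + 1) 0
  simp only [add_zero, zero_add, Nat.cast_zero, mul_zero, one_mul, mul_one] at h1 h2 h3 h4
  have e2 : m + 1 + 1 = m + 2 := rfl
  rw [e2] at h3 h4
  unfold cert at h0
  push_cast at h0 h1 h2 h3 h4
  set S2 := ∑ k ∈ range (m + 1), F l (m + 2) k
  set S1 := ∑ k ∈ range (m + 1), F l (m + 1) k
  set S0 := ∑ k ∈ range (m + 1), F l m k
  set f0 := F l m m
  set f10 := F l (m + 1) m
  set f11 := F l (m + 1) (m + 1)
  set f21 := F l (m + 2) (m + 1)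
  set f22 := F l (m + 2) (m + 2)
  linear_combination h0 + (2 * ((m : ℚ) + 2 - l) * ((m : ℚ) + 1) + 4 * ((m : ℚ) + 1) * ((m : ℚ) + 2)) * h3 +
    4 * ((m : ℚ) + 1) * ((m : ℚ) + 2) * h4 -
    (4 * ((m : ℚ) + 2 - l) * ((m : ℚ) + 1) ^ 2 + (-14 + 4 * l - 20 * m - 8 * (m : ℚ) ^ 2) * ((m : ℚ) + 1) +
      4 * ((m : ℚ) + 1) * ((m : ℚ) + 2) * ((m : ℚ) + 1 + l)) * (h1 + h2)

end Pool.Agent.Q267.BM
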